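import Pool.Agent.MP_cd93fa_pr.Final

/-!
# Boundary limits of a graph-based Polya urn for large exponent

`G` is a finite connected graph on the vertex set `Fin m`, `m ≥ 2`.  At every step each edge adds
one ball to one of its two endpoints; given the past the edges act independently, and the edge `e`
chooses its endpoint `v` with probability `B_v ^ α / ∑_{u ∈ e} B_u ^ α`.

The theorem `result` says that for all sufficiently large `α` (depending on `G` only), for every
initial configuration, almost surely the vector of shares converges, and its limit has a zero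
coordinate.
-/

namespace Pool.Agent.Results.MP_cd93fa_pr.BoundaryLimit

open MeasureTheory Filter Topology

variable {m : ℕ} (G : SimpleGraph (Fin m)) [DecidableRel G.Adj]

/-- Contents of the bins after `n` steps, when the initial contents are `b₀` and at step `k + 1`
the edge `e` adds its ball to the bin `X k e`. -/
def contents (b₀ : Fin m → ℕ) (X : ℕ → G.edgeSet → Fin m) : ℕ → Fin m → ℕ
  | 0 => b₀
  | n + 1 => fun i => contents b₀ X n i + Fintype.card {e : G.edgeSet // X n e = i}

/-- Probability that the edge `e` adds its ball to its endpoint `v`, when the contents are `b`. -/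
noncomputable def ballProb (α : ℝ) (b : Fin m → ℕ) (e : Sym2 (Fin m)) (v : Fin m) : ℝ :=
  (b v : ℝ) ^ α / ∑ u ∈ e.toFinset, (b u : ℝ) ^ α

/-- `X ω n e` is the endpoint to which the edge `e` adds its ball at step `n + 1`.  The choices of
step `n + 1` are determined by the information `ℱ (n + 1)`, and, given `ℱ n`, they are independent
over the edges with the probabilities `ballProb` evaluated at the current contents. -/
structure IsGraphUrn (α : ℝ) (b₀ : Fin m → ℕ) {Ω : Type*} {mΩ : MeasurableSpace Ω}
    (μ : Measure Ω) (ℱ : Filtration ℕ mΩ) (X : Ω → ℕ → G.edgeSet → Fin m) : Prop where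
  /-- each edge adds its ball to one of its endpoints -/
  mem_edge : ∀ ω n (e : G.edgeSet), X ω n e ∈ (e : Sym2 (Fin m))
  /-- the choices of step `n + 1` are known at time `n + 1` -/
  adapted : ∀ n (c : G.edgeSet → Fin m), MeasurableSet[ℱ (n + 1)] {ω | X ω n = c}
  /-- conditional law of the choices of step `n + 1` given the past -/
  law : ∀ n (c : G.edgeSet → Fin m), (∀ e : G.edgeSet, c e ∈ (e : Sym2 (Fin m))) →
    μ[({ω | X ω n = c}).indicator (fun _ => (1 : ℝ)) | ℱ n] =ᵐ[μ]
      fun ω => ∏ e : G.edgeSet, ballProb α (contents G b₀ (X ω) n) e (c e)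

/-- The shares `x_i(n) = B_i(n) / (N₀ + n N)`, with `N₀` the initial number of balls and `N` the
number of edges. -/
noncomputable def share (b₀ : Fin m → ℕ) (X : ℕ → G.edgeSet → Fin m) (n : ℕ) : Fin m → ℝ :=
  fun i => (contents G b₀ X n i : ℝ) / ((∑ j, (b₀ j : ℝ)) + n * Fintype.card G.edgeSet)

lemma contents_pos {b₀ : Fin m → ℕ} (hb : ∀ i, 1 ≤ b₀ i) (X : ℕ → G.edgeSet → Fin m) (n : ℕ)
    (i : Fin m) : 1 ≤ contents G b₀ X n i := by
  induction n with
  | zero => exact hb i
  | succ n ih => exact ih.trans (Nat.le_add_right _ _)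

theorem result (m : ℕ) (hm : 2 ≤ m) (G : SimpleGraph (Fin m)) [DecidableRel G.Adj]
    (hG : G.Connected) :
    ∃ α₀ : ℝ, ∀ α : ℝ, α₀ < α → ∀ b₀ : Fin m → ℕ, (∀ i, 1 ≤ b₀ i) →
      ∀ (Ω : Type*) (mΩ : MeasurableSpace Ω) (μ : Measure Ω), IsProbabilityMeasure μ →
      ∀ (ℱ : Filtration ℕ mΩ) (X : Ω → ℕ → G.edgeSet → Fin m), IsGraphUrn G α b₀ μ ℱ X →
        ∀ᵐ ω ∂μ, ∃ x : Fin m → ℝ, Tendsto (fun n => share G b₀ (X ω) n) atTop (𝓝 x) ∧
          (∀ i, 0 ≤ x i) ∧ ∑ i, x i = 1 ∧ ∃ i, x i = 0 := by
  classical
  -- endpoints of the edges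
  have hend : ∀ e : G.edgeSet, ∃ p : Fin m × Fin m, (e : Sym2 (Fin m)) = s(p.1, p.2) ∧
      p.1 ≠ p.2 := by
    rintro ⟨e, he⟩
    induction e with
    | h a b =>
      refine ⟨(a, b), rfl, ?_⟩
      exact G.ne_of_adj (by simpa using he)
  choose p hp hne using hend
  have hE : Nonempty G.edgeSet := by
    have : Nontrivial (Fin m) := Fin.nontrivial_iff_two_le.mpr hm
    obtain ⟨a, b, hab⟩ := exists_pair_ne (Fin m)
    obtain ⟨w⟩ := hG.preconnected a b
    cases w with
    | nil => exact absurd rfl hab
    | cons h _ => exact ⟨⟨s(_, _), h⟩⟩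
  obtain ⟨α₀, hα₀⟩ := Pool.Agent.MP_cd93fa_pr.main (fun e => (p e).1) (fun e => (p e).2) hne
  refine ⟨α₀, fun α hα b₀ hb Ω mΩ μ hμ ℱ X hX => ?_⟩
  have hdest : ∀ ω n, Pool.Agent.MP_cd93fa_pr.dest (fun e => (p e).1) (fun e => (p e).2)
      (fun e => decide (X ω n e = (p e).1)) = X ω n := by
    intro ω n
    funext e
    unfold Pool.Agent.MP_cd93fa_pr.dest
    by_cases h : X ω n e = (p e).1
    · simp [h]
    · have h1 := hX.mem_edge ω n e
      rw [hp e, Sym2.mem_iff] at h1
      rcases h1 with h1 | h1
      · exact absurd h1 h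
      · have h2 : decide (X ω n e = (p e).1) = false := decide_eq_false h
        change (if decide (X ω n e = (p e).1) = true then (p e).1 else (p e).2) = X ω n e
        rw [h2, h1]
        rfl
  have hdest' : ∀ ω n (c : G.edgeSet → Bool),
      (fun e => decide (X ω n e = (p e).1)) = c ↔
      X ω n = Pool.Agent.MP_cd93fa_pr.dest (fun e => (p e).1) (fun e => (p e).2) c := by
    intro ω n c
    constructor
    · rintro rfl
      exact (hdest ω n).symm
    · intro h
      funext e
      rw [h]
      unfold Pool.Agent.MP_cd93fa_pr.dest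
      cases hc : c e
      · simp [(hne e).symm]
      · simp
  have hurn : Pool.Agent.MP_cd93fa_pr.IsUrn (fun e => (p e).1) (fun e => (p e).2) α b₀ μ ℱ
      (fun n ω e => decide (X ω n e = (p e).1)) (fun n ω => contents G b₀ (X ω) n) := by
    refine ⟨fun n c => ?_, fun ω => rfl, fun n ω => ?_, fun n c => ?_⟩
    · have : {ω | (fun e => decide (X ω n e = (p e).1)) = c} =
          {ω | X ω n = Pool.Agent.MP_cd93fa_pr.dest (fun e => (p e).1) (fun e => (p e).2) c} := by
        ext ω; exact hdest' ω n c
      rw [this]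
      exact hX.adapted n _
    · funext i
      simp only [contents]
      congr 1
      unfold Pool.Agent.MP_cd93fa_pr.inc
      rw [hdest ω n, Fintype.card_subtype, Finset.card_filter]
    · have : {ω | (fun e => decide (X ω n e = (p e).1)) = c} =
          {ω | X ω n = Pool.Agent.MP_cd93fa_pr.dest (fun e => (p e).1) (fun e => (p e).2) c} := by
        ext ω; exact hdest' ω n c
      rw [this]
      refine (hX.law n _ fun e => ?_).trans (Eventually.of_forall fun ω => ?_)
      · rw [hp e, Sym2.mem_iff]
        unfold Pool.Agent.MP_cd93fa_pr.dest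
        split_ifs
        · exact Or.inl rfl
        · exact Or.inr rfl
      · refine Finset.prod_congr rfl fun e _ => ?_
        have hpos : ∀ i, (0 : ℝ) < contents G b₀ (X ω) n i := fun i => by
          have := contents_pos G hb (X ω) n i
          exact_mod_cast this
        have hsum : ∑ u ∈ (e : Sym2 (Fin m)).toFinset, (contents G b₀ (X ω) n u : ℝ) ^ α =
            (contents G b₀ (X ω) n (p e).1 : ℝ) ^ α + (contents G b₀ (X ω) n (p e).2 : ℝ) ^ α := by
          rw [hp e, Sym2.toFinset_mk_eq, Finset.sum_pair (hne e)]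
        unfold ballProb Pool.Agent.MP_cd93fa_pr.dest Pool.Agent.MP_cd93fa_pr.ew
        rw [hsum]
        split_ifs
        · rfl
        · rw [Pool.Agent.MP_cd93fa_pr.one_sub_pr (hpos _).le (hpos _).le
            (add_pos (hpos _) (hpos _))]
          unfold Pool.Agent.MP_cd93fa_pr.pr
          rw [add_comm]
  exact hα₀ α hα b₀ hb μ ℱ _ _ hurn

end Pool.Agent.Results.MP_cd93fa_pr.BoundaryLimit
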